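import Mathlib
import Pool.Agent.R390.MZ.PadicAlg

set_option autoImplicit false

/-!
# If the relations between real multiple zeta values hold p-adically, then real multiple zeta values are
as independent as the `p`-adic ones together with `π ^ 2`

If Q1 holds for `p` and some `p`-adic multiple zeta values `ζ_p(s_i)` are algebraically independent
over `ℚ`, then `π ^ 2` and the `ζ(s_i)` are algebraically independent.  If only `ζ_p(s) ≠ 0`, then no
power of `ζ(s)` is `π ^ 2` times an element of the algebra of multiple zeta values; for example, if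
`ζ_p(3) ≠ 0`, then `ζ(3) / π ^ 3` is irrational, and if `ζ_p(5) ≠ 0`, then `ζ(5) / (ζ(2) ζ(3))` is
irrational.
-/

open Pool.Agent.R390.MZ MvPolynomial

namespace Pool.Agent.Results.MP_03df5c_nt.AlgebraicIndependence

/-- Let `K` be a field of characteristic `0` and `zp s ∈ K` numbers for all indices, with
`zp (2) = 0`, such that all polynomial relations over `ℚ` between real multiple zeta values hold for
the numbers `zp s` (`Transfer zp`).
(1) If the numbers `zp (s_i)`, for admissible indices `s_i`, are algebraically independent over `ℚ`,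
then `π ^ 2` and the `ζ(s_i)` are algebraically independent over `ℚ`.
(2) If `zp s ≠ 0` for an admissible index `s`, then no power `ζ(s) ^ a` is equal to `π ^ 2 * y` with
`y` in the algebra generated by all real multiple zeta values. -/
theorem result {K : Type} [Field K] [CharZero K] (zp : List ℕ → K) (h2 : zp [2] = 0)
    (h : Transfer zp) :
    (∀ {ι : Type} (s : ι → List ℕ), (∀ i, Admissible (s i)) →
      AlgebraicIndependent ℚ (fun i => zp (s i)) →
      AlgebraicIndependent ℚ fun o : Option ι => o.elim (Real.pi ^ 2) fun i => zt (s i)) ∧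
    (∀ s, Admissible s → zp s ≠ 0 → ∀ (a : ℕ),
      ∀ y ∈ Algebra.adjoin ℚ {z : ℝ | ∃ l, Admissible l ∧ z = zt l}, zt s ^ a ≠ Real.pi ^ 2 * y) := by
  refine ⟨fun {ι} s hs hp => algebraicIndependent_of_transfer h h2 hs hp, ?_⟩
  intro s hs hp a y hy he
  have e : {z : ℝ | ∃ l, Admissible l ∧ z = zt l} = Set.range fun i : Ix => zt i.1 := by
    ext f
    constructor
    · rintro ⟨l, hl, rfl⟩
      exact ⟨⟨l, hl⟩, rfl⟩
    · rintro ⟨i, rfl⟩
      exact ⟨i.1, i.2, rfl⟩
  rw [e, Algebra.adjoin_range_eq_range_aeval] at hy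
  obtain ⟨g, rfl⟩ := hy
  have h3 := transfer_Ix h (X ⟨s, hs⟩ ^ a - C 6 * X ⟨[2], adm_two⟩ * g) (by
    rw [map_sub, map_pow, aeval_X, map_mul, map_mul, aeval_X, aeval_C, sub_eq_zero]
    rw [he, ← six_zt_two]
    simp)
  rw [map_sub, map_pow, aeval_X, map_mul, map_mul, aeval_X, h2, mul_zero, zero_mul, sub_zero] at h3
  exact pow_ne_zero _ hp h3

end Pool.Agent.Results.MP_03df5c_nt.AlgebraicIndependence
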