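import Mathlib
import Pool.Agent.R390.MZ.Padic

set_option autoImplicit false

/-!
# If the relations between real multiple zeta values hold p-adically, then the real dimensions are large

`Z_k` and `Z_(p,k)` are the `ℚ`-spans of the real and of the `p`-adic multiple zeta values of weight
`k`.  If Q1 holds for `p`, then `dim Z_k ≥ dim Z_(p,k) + dim Z_(k-2)`, hence
`dim Z_k ≥ ∑_j dim Z_(p,k-2j)`.  For example, if `ζ_p(3)` and `ζ_p(5)` are not `0`, then `ζ(5)` and
`ζ(2)ζ(3)` are linearly independent over `ℚ`; and the conjectured dimensions of the spaces of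
`p`-adic multiple zeta values, for a single `p`, imply Zagier's lower bound `dim Z_k ≥ d_k`.
-/

open Pool.Agent.R390.MZ

namespace Pool.Agent.Results.MP_03df5c_nt.DimensionInequality

/-- Let `K` be a field of characteristic `0` and `zp s ∈ K` numbers for all indices, with
`zp (2) = 0`, such that all polynomial relations over `ℚ` between real multiple zeta values hold for
the numbers `zp s` (`Transfer zp`). Let `Z_k` and `P_k` be the `ℚ`-spans of the `ζ(s)` and of the
`zp s` for the admissible `s` of weight `k`, with `1` added if `k = 0`. Then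
(1) `dim Z_(k+2) ≥ dim P_(k+2) + dim Z_k` for all `k`;
(2) `dim Z_k ≥ dim P_k + dim P_(k-2) + dim P_(k-4) + …` for all `k`;
(3) if `dim P_0 = 1`, `dim P_1 = 0` and `dim P_(k+2) = d_(k+2) - d_k` for all `k`, then
`dim Z_k ≥ d_k` for all `k`, where `d_0 = 1`, `d_1 = 0`, `d_2 = 1`, `d_k = d_(k-2) + d_(k-3)`. -/
theorem result {K : Type} [Field K] [CharZero K] (zp : List ℕ → K) (h2 : zp [2] = 0)
    (h : Transfer zp) :
    (∀ k, Module.finrank ℚ (PL zp (k + 2)) + Module.finrank ℚ (ZL k) ≤
      Module.finrank ℚ (ZL (k + 2))) ∧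
    (∀ k, ∑ j ∈ Finset.range (k / 2 + 1), Module.finrank ℚ (PL zp (k - 2 * j)) ≤
      Module.finrank ℚ (ZL k)) ∧
    (Module.finrank ℚ (PL zp 0) = 1 → Module.finrank ℚ (PL zp 1) = 0 →
      (∀ k, Module.finrank ℚ (PL zp (k + 2)) + dz k = dz (k + 2)) →
      ∀ k, dz k ≤ Module.finrank ℚ (ZL k)) := by
  refine ⟨transfer_ineq h h2, transfer_sum h h2, fun h0 h1 hd k => ?_⟩
  induction k using Nat.strong_induction_on with
  | _ k ih =>
    match k with
    | 0 =>
      have := transfer_sum h h2 0
      simp only [Nat.zero_div, zero_add, Finset.range_one, Finset.sum_singleton] at this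
      have e : dz 0 = 1 := rfl
      rw [e, ← h0]
      exact this
    | 1 => exact Nat.zero_le _
    | k + 2 =>
      have h3 := transfer_ineq h h2 k
      have h4 := hd k
      have h5 := ih k (by omega)
      omega

end Pool.Agent.Results.MP_03df5c_nt.DimensionInequality
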