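import Mathlib
import Pool.Agent.R390.MZ.PadicEq

set_option autoImplicit false

/-!
# Transfer of relations to `p`-adic multiple zeta values is equivalent to the real period conjecture, if
the `p`-adic one holds

The algebra of motivic multiple zeta values is a polynomial ring `R`, and the real and `p`-adic
multiple zeta values are the images of the motivic ones under two homomorphisms.  Q1 for `p` says
that the kernel of the real period map is contained in the kernel of the `p`-adic period map.  The
`p`-adic period conjecture says that the latter is generated by the motivic `ζ(2)`.  If it is a
principal ideal, then Q1 for `p` holds if and only if the real period map is injective.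
-/

open Pool.Agent.R390.MZ MvPolynomial

namespace Pool.Agent.Results.MP_03df5c_nt.PeriodEquivalence

/-- Let `K` be a field of characteristic `0` (for example the `p`-adic numbers) and `zp s ∈ K` for
all indices `s`, with `zp (2) = 0`. Let `M` be a model for the motivic multiple zeta values and the
two period maps `aeval M.x` and `aeval M.y`. Then
(1) all polynomial relations over `ℚ` between the real multiple zeta values hold for the numbers
`zp s` (`Transfer zp`) if and only if the kernel of the real period map is contained in the kernel
of the period map to `K`;
(2) if the kernel of the period map to `K` is a principal ideal, then `Transfer zp` holds if and only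
if the real period map is injective. -/
theorem result {K : Type} [Field K] [CharZero K] (zp : List ℕ → K) (h2 : zp [2] = 0) {σ : Type}
    (M : Motivic zp σ) :
    (Transfer zp ↔ RingHom.ker (aeval (R := ℚ) M.x) ≤ RingHom.ker (aeval (R := ℚ) M.y)) ∧
    ((RingHom.ker (aeval (R := ℚ) M.y)).IsPrincipal →
      (Transfer zp ↔ Function.Injective (aeval (R := ℚ) M.x))) := by
  refine ⟨?_, fun hp => ?_⟩
  · rw [transfer_iff M]
    exact ⟨fun h f hf => h f hf, fun h f hf => h hf⟩
  · obtain ⟨q, hq⟩ := hp
    rw [transfer_iff M]
    constructor
    · intro h
      refine injective_of_le M h2 (q := q) (fun f => ?_) h
      have h1 : f ∈ RingHom.ker (aeval (R := ℚ) M.y) ↔ f ∈ Ideal.span {q} := by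
        rw [hq]
      rw [RingHom.mem_ker, Ideal.mem_span_singleton] at h1
      exact h1
    · intro h f hf
      rw [(injective_iff_map_eq_zero _).1 h f hf, map_zero]

end Pool.Agent.Results.MP_03df5c_nt.PeriodEquivalence
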